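import Pool.Agent.Helper66.HK.Stmts

/-! Module CDA of `hk_mods`: Shannon inequalities for the final configuration. -/

namespace Pool.Agent.Helper66.HK

open Finset Pool.Agent.Helper69.RK

open Classical in
/-- entropies of the family of the `Λ j`, `j ∈ s` -/
theorem cda_chain (h1 : ST_E1) (h2 : ST_E2) {Ω 𝔾 ι γ : Type} [Fintype Ω] [Fintype ι]
    (μ : Ω → ℝ) (hμ : ∀ ω, 0 ≤ μ ω) (Λ : ι → Ω → 𝔾) (g : Ω → γ) (s : Finset ι) :
    (∀ u : ℝ, (∀ j ∈ s, CH μ (Λ j) g ≤ u) →
      CH μ (fun ω => (fun j => if j ∈ s then some (Λ j ω) else none)) g ≤ s.card * u) ∧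
    (∀ v : ℝ, (∀ j ∈ s, ∀ s' ⊆ s, j ∉ s' →
        v ≤ CH μ (Λ j) (fun ω => ((fun j => if j ∈ s' then some (Λ j ω) else none), g ω))) →
      s.card * v ≤ CH μ (fun ω => (fun j => if j ∈ s then some (Λ j ω) else none)) g) := by
  induction s using Finset.induction_on with
  | empty =>
    constructor
    · intro u _
      rw [h2.2.2 Ω _ _ μ _ _ hμ]
      · simp
      · intro ω ω' _ _ _
        simp
    · intro v _
      have := (h1 Ω _ PUnit _ μ (fun ω => (fun j : ι => if j ∈ (∅ : Finset ι) then some (Λ j ω) else none))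
        (fun _ => PUnit.unit) g hμ).1
      simpa using this
  | insert b s hb ih =>
    have key : CH μ (fun ω => (fun j => if j ∈ insert b s then some (Λ j ω) else none)) g =
        CH μ (fun ω => (fun j => if j ∈ s then some (Λ j ω) else none)) g +
        CH μ (Λ b) (fun ω => ((fun j => if j ∈ s then some (Λ j ω) else none), g ω)) := by
      rw [← (h1 Ω _ _ _ μ (fun ω => (fun j => if j ∈ s then some (Λ j ω) else none)) (Λ b) g hμ).2.1]
      apply le_antisymm
      · refine h2.1 Ω _ _ _ μ _ _ _ hμ ?_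
        intro ω ω' _ _ h
        simp only [Prod.mk.injEq] at h
        funext j
        by_cases hj : j = b
        · subst hj
          simp [h.1.2]
        · have := congrFun h.1.1 j
          by_cases hjs : j ∈ s
          · simpa [hj, hjs] using this
          · simp [hj, hjs]
      · refine h2.1 Ω _ _ _ μ _ _ _ hμ ?_
        intro ω ω' _ _ h
        simp only [Prod.mk.injEq] at h
        have hb' := congrFun h.1 b
        simp only [mem_insert_self, if_true, Option.some.injEq] at hb'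
        refine Prod.ext (funext fun j => ?_) hb'
        have := congrFun h.1 j
        by_cases hjs : j ∈ s
        · have hj : j ∈ insert b s := mem_insert_of_mem hjs
          simpa [hj, hjs] using this
        · simp [hjs]
    constructor
    · intro u hu
      rw [key, card_insert_of_notMem hb]
      have e1 := ih.1 u (fun j hj => hu j (mem_insert_of_mem hj))
      have e2 := (h1 Ω _ _ _ μ (Λ b) (fun ω => (fun j => if j ∈ s then some (Λ j ω) else none)) g hμ).2.2
      have e3 := hu b (mem_insert_self _ _)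
      push_cast
      linarith
    · intro v hv
      rw [key, card_insert_of_notMem hb]
      have e1 := ih.2 v (fun j hj s' hs' hjs' => hv j (mem_insert_of_mem hj) s'
        (hs'.trans (subset_insert _ _)) hjs')
      have e2 := hv b (mem_insert_self _ _) s (subset_insert _ _) hb
      push_cast
      linarith

theorem st_CDA (h1 : ST_E1) (h2 : ST_E2) : ST_CDA := by
  intro Ω ζ κ ξ 𝔾 ι _ _ _ μ Z Q X Λ P o u v y e hμ hms hP hu hv he hy
  classical
  have hPe : ∀ ω ω', μ ω ≠ 0 → μ ω' ≠ 0 → X ω = X ω' → Q ω = Q ω' → P ω = P ω' := by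
    intro ω ω' a b c d
    exact hP ω ω' a b (by simp only [c, d])
  have hbr : ∀ {α β γ : Type} (f : Ω → α) (h : Ω → β) (g : Ω → γ),
      CH μ f g + CH μ h (fun ω => (f ω, g ω)) = CH μ h g + CH μ f (fun ω => (h ω, g ω)) := by
    intro α β γ f h g
    rw [← (h1 Ω _ _ _ μ f h g hμ).2.1, ← (h1 Ω _ _ _ μ h f g hμ).2.1]
    apply le_antisymm
    · refine h2.1 Ω _ _ _ μ _ _ _ hμ ?_
      intro ω ω' _ _ h
      simp only [Prod.mk.injEq] at h
      exact Prod.ext h.1.2 h.1.1
    · refine h2.1 Ω _ _ _ μ _ _ _ hμ ?_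
      intro ω ω' _ _ h
      simp only [Prod.mk.injEq] at h
      exact Prod.ext h.1.2 h.1.1
  have huv : v ≤ u := by
    refine (hv o).trans (le_trans ?_ (hu o))
    refine h2.2.1 Ω _ _ _ μ _ _ _ hμ ?_
    intro ω ω' _ _ h
    simp only [Prod.mk.injEq] at h ⊢
    exact ⟨h.2.2.1, h.2.2.2⟩
  have hfin : ∀ i, i ≠ o → v ≤ CH μ (Λ i) (fun ω => (X ω, P ω + Λ o ω, Q ω, Z ω)) := by
    intro i hi
    refine (hv i).trans (h2.2.1 Ω _ _ _ μ _ _ _ hμ ?_)
    intro ω ω' a b h
    simp only [Prod.mk.injEq] at h ⊢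
    have ho := congrFun h.1 o
    simp only [if_neg (Ne.symm hi), Option.some.injEq] at ho
    exact ⟨h.2.1, by rw [hPe ω ω' a b h.2.1 h.2.2.1, ho], h.2.2.1, h.2.2.2⟩
  refine ⟨?_, ?_, hfin, ?_⟩
  · set Lo : Ω → ι → Option 𝔾 := fun ω => (fun j => if j = o then none else some (Λ j ω)) with hLo
    set c : Ω → 𝔾 × κ × ζ := fun ω => (P ω + Λ o ω, Q ω, Z ω) with hc
    have e0 : MI μ X (fun ω => ((fun j => if j = o then none else some (Λ j ω)), P ω + Λ o ω, Q ω, Z ω))
        (fun ω => (P ω + Λ o ω, Q ω, Z ω)) = CH μ X c - CH μ X (fun ω => (Lo ω, c ω)) := by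
      unfold MI
      congr 1
      apply le_antisymm
      · refine h2.2.1 Ω _ _ _ μ _ _ _ hμ ?_
        intro ω ω' _ _ h
        simp only [Prod.mk.injEq] at h
        simp only [hLo, hc, Prod.mk.injEq]
        exact ⟨h.1.1, h.1.2⟩
      · refine h2.2.1 Ω _ _ _ μ _ _ _ hμ ?_
        intro ω ω' _ _ h
        simp only [hLo, hc, Prod.mk.injEq] at h
        simp only [Prod.mk.injEq]
        exact ⟨⟨h.1, h.2⟩, h.2⟩
    have e1 := hbr X Lo c
    have hset : Lo = fun ω => (fun j => if j ∈ univ.erase o then some (Λ j ω) else none) := by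
      funext ω j
      simp only [hLo, mem_erase, mem_univ, and_true]
      by_cases hj : j = o <;> simp [hj]
    have hcard : (((univ : Finset ι).erase o).card : ℝ) = (Fintype.card ι : ℝ) - 1 := by
      rw [card_erase_of_mem (mem_univ o), card_univ, Nat.cast_sub]
      · simp
      · exact Fintype.card_pos_iff.2 ⟨o⟩
    have e2 : CH μ Lo c ≤ ((Fintype.card ι : ℝ) - 1) * u := by
      rw [hset, ← hcard]
      refine (cda_chain h1 h2 μ hμ Λ c (univ.erase o)).1 u ?_
      intro j _
      refine le_trans ?_ (hu j)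
      refine h2.2.1 Ω _ _ _ μ _ _ _ hμ ?_
      intro ω ω' _ _ h
      simp only [hc, Prod.mk.injEq] at h ⊢
      exact ⟨h.2.1, h.2.2⟩
    have e3 : ((Fintype.card ι : ℝ) - 1) * v ≤ CH μ Lo (fun ω => (X ω, c ω)) := by
      rw [hset, ← hcard]
      refine (cda_chain h1 h2 μ hμ Λ (fun ω => (X ω, c ω)) (univ.erase o)).2 v ?_
      intro j hj s' hs' hjs'
      refine (hv j).trans (h2.2.1 Ω _ _ _ μ _ _ _ hμ ?_)
      intro ω ω' a b h
      simp only [Prod.mk.injEq] at h
      simp only [hc, Prod.mk.injEq]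
      have ho := congrFun h.1 o
      have hoj : o ≠ j := (mem_erase.1 hj).1.symm
      simp only [if_neg hoj, Option.some.injEq] at ho
      refine ⟨?_, h.2.1, by rw [hPe ω ω' a b h.2.1 h.2.2.1, ho], h.2.2.1, h.2.2.2⟩
      funext i
      by_cases his : i ∈ s'
      · have hij : i ≠ j := fun hh => hjs' (hh ▸ his)
        have := congrFun h.1 i
        simp only [if_neg hij, Option.some.injEq] at this
        simp [his, this]
      · simp [his]
    rw [e0]
    have e4 : CH μ X c - CH μ X (fun ω => (Lo ω, c ω)) =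
        CH μ Lo c - CH μ Lo (fun ω => (X ω, c ω)) := by linarith
    rw [e4]
    nlinarith
  · set Lo : Ω → ι → Option 𝔾 := fun ω => (fun j => if j = o then none else some (Λ j ω)) with hLo
    set W : Ω → (ι → Option 𝔾) × κ × ζ := fun ω => (Lo ω, Q ω, Z ω) with hW
    set S : Ω → 𝔾 := fun ω => P ω + Λ o ω with hS
    have e0 : CH μ X (fun ω => (S ω, W ω)) ≤ CH μ X (fun ω =>
        (((fun j => if j = o then none else some (Λ j ω)), P ω + Λ o ω, Q ω, Z ω), Z ω)) := by
      refine h2.2.1 Ω _ _ _ μ _ _ _ hμ ?_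
      intro ω ω' _ _ h
      simp only [hS, hW, hLo, Prod.mk.injEq] at h
      simp only [Prod.mk.injEq]
      exact ⟨⟨h.2.1, h.1, h.2.2.1, h.2.2.2⟩, h.2.2.2⟩
    have e1 := hbr X S W
    have e2 : CH μ X Z - e ≤ CH μ X W := by
      have : CH μ X (fun ω => ((Q ω, fun j => Λ j ω), Z ω)) ≤ CH μ X W := by
        refine h2.2.1 Ω _ _ _ μ _ _ _ hμ ?_
        intro ω ω' _ _ h
        simp only [Prod.mk.injEq] at h
        simp only [hW, hLo, Prod.mk.injEq]
        refine ⟨?_, h.1.1, h.2⟩
        funext j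
        rw [congrFun h.1.2 j]
      unfold MI at he
      linarith
    have e3 : v ≤ CH μ S (fun ω => (X ω, W ω)) := by
      refine (hv o).trans ?_
      have f1 : CH μ (Λ o) (fun ω => ((fun j => if j = o then none else some (Λ j ω)), X ω, Q ω, Z ω)) ≤
          CH μ (Λ o) (fun ω => (X ω, W ω)) := by
        refine h2.2.1 Ω _ _ _ μ _ _ _ hμ ?_
        intro ω ω' _ _ h
        simp only [Prod.mk.injEq] at h
        simp only [hW, hLo, Prod.mk.injEq]
        exact ⟨h.2.1, h.1, h.2.2.1, h.2.2.2⟩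
      refine f1.trans (h2.1 Ω _ _ _ μ _ _ _ hμ ?_)
      intro ω ω' a b h
      simp only [hS, hW, Prod.mk.injEq] at h
      have := h.1
      rw [hPe ω ω' a b h.2.1 h.2.2.2.1] at this
      exact add_left_cancel this
    have e4 : CH μ S W ≤ y := by
      refine le_trans ?_ hy
      refine h2.2.1 Ω _ _ _ μ _ _ _ hμ ?_
      intro ω ω' _ _ h
      simp only [hW, Prod.mk.injEq] at h ⊢
      exact ⟨h.2.1, h.2.2⟩
    unfold MI
    linarith
  · have e1 : CH μ P (fun ω => (P ω + Λ o ω, Q ω, Z ω)) ≤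
        CH μ (Λ o) (fun ω => (P ω + Λ o ω, Q ω, Z ω)) := by
      refine h2.1 Ω _ _ _ μ _ _ _ hμ ?_
      intro ω ω' _ _ h
      simp only [Prod.mk.injEq] at h
      have := h.2.1
      rw [h.1] at this
      exact add_right_cancel this
    refine e1.trans (le_trans ?_ (hu o))
    refine h2.2.1 Ω _ _ _ μ _ _ _ hμ ?_
    intro ω ω' _ _ h
    simp only [Prod.mk.injEq] at h ⊢
    exact ⟨h.2.1, h.2.2⟩

end Pool.Agent.Helper66.HK
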