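import Pool.Agent.Helper66.HK.Stmts

/-! Module TWO of `hk_mods`: the two-time lemma. -/

namespace Pool.Agent.Helper66.HK

open Finset Pool.Agent.Helper69.RK

theorem two_HS_mono {m n : ℕ} {η η' : ℝ} (h : η ≤ η') {Ω ζ : Type} [Fintype Ω] {μ : Ω → ℝ} {Z : Ω → ζ}
    {a x : Ω → Fin m → ℝ} {t : Ω → ℝ} (hs : HS m n η μ Z a x t) : HS m n η' μ Z a x t := by
  have hn : (0 : ℝ) ≤ n := Nat.cast_nonneg n
  have hm : η * n ≤ η' * n := mul_le_mul_of_nonneg_right h hn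
  exact ⟨hs.nn, hs.ms, hs.ab, hs.xb, hs.tb, fun k hk => (hs.st k hk).trans hm,
    le_trans (by nlinarith) hs.h1, hs.h2.trans hm⟩

theorem two_TT_mono {m n w : ℕ} {γ η η' : ℝ} (h : η ≤ η') {Ω ζ κ : Type} [Fintype Ω] {μ : Ω → ℝ}
    {Z : Ω → ζ} {Q : Ω → κ} {a x : Ω → Fin m → ℝ} {t t' : Ω → ℝ} {Λ Λ' : Ω → Fin m → ℤ}
    (hs : TT m n w γ η μ Z Q a x t t' Λ Λ') : TT m n w γ η' μ Z Q a x t t' Λ Λ' := by
  have hn : (0 : ℝ) ≤ n := Nat.cast_nonneg n
  have hm : η * n ≤ η' * n := mul_le_mul_of_nonneg_right h hn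
  exact ⟨two_HS_mono h hs.s, two_HS_mono h hs.s', hs.d, hs.c, hs.i.trans hm,
    hs.y.trans (by nlinarith), hs.y'.trans (by nlinarith)⟩

theorem st_TWO (hT : ST_TWW) (hU : ST_UPW) (h1 : ST_E1) (h2 : ST_E2) (h3 : ST_E3) : ST_TWO := by
  intro m M γ ν hM hL hN ε hε
  obtain ⟨η1, hη1, n1, H1⟩ := hT m M γ ν hM hL hN (ε / 4) (by positivity)
  obtain ⟨η2, hη2, n2, H2⟩ := hU m M γ hM hL (ε / 4) (by positivity)
  obtain ⟨n3, hn3⟩ := exists_nat_ge ((M * |ν + ε / 4| + m * M) / (ε / 2))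
  refine ⟨min η1 η2, lt_min hη1 hη2, max n1 (max n2 n3), ?_⟩
  intro n hn Ω ζ κ _ μ Z Q a x t t' Λ Λ' hTT
  have hn1 : n1 ≤ n := (le_max_left _ _).trans hn
  have hn2 : n2 ≤ n := (le_max_left _ _).trans ((le_max_right _ _).trans hn)
  have hn3' : n3 ≤ n := (le_max_right _ _).trans ((le_max_right _ _).trans hn)
  have hμ := hTT.s.nn
  have T1 := two_TT_mono (min_le_left η1 η2) hTT
  have T2 := two_TT_mono (min_le_right η1 η2) hTT
  have hmid := H1 n hn1 Ω ζ κ μ Z Q a x t t' Λ Λ' T1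
  have hdep : Dep μ Q t' := by
    intro ω ω' p q e
    exact (Prod.mk.inj (hTT.d ω ω' p q e)).2
  have hMI : MI μ (fun ω => (a ω, x ω)) (fun ω => (Q ω, Λ' ω)) Z ≤ η2 * n := by
    refine le_trans ?_ T2.i
    unfold MI
    refine sub_le_sub_left (h2.2.1 Ω _ _ _ μ _ _ _ hμ ?_) _
    intro ω ω' _ _ e
    simp only [Prod.mk.injEq] at e ⊢
    exact ⟨⟨e.1.1, e.1.2.2⟩, e.2⟩
  obtain ⟨hfirst, -⟩ := H2 n hn2 Ω ζ κ μ Z Q a x t' Λ' T2.s' hdep hMI T2.y'
  set Y : Ω → Fin m → ℤ := fun ω => Yn n (t ω) (a ω) (x ω) (Λ ω) with hY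
  set Y' : Ω → Fin m → ℤ := fun ω => Yn n (t' ω) (a ω) (x ω) (Λ' ω) with hY'
  set w := n / M with hw
  set G : Ω → (Fin m → ℤ) × κ × ζ := fun ω => (Y ω, Q ω, Z ω) with hG
  have chain : ∀ k ≤ M, CH μ (fun ω => dv (n - k * w) (Y' ω)) G ≤ ε / 4 * n + k * ((ν + ε / 4) * w) := by
    intro k
    induction k with
    | zero =>
      intro _
      simp only [zero_mul, Nat.sub_zero, Nat.cast_zero, add_zero]
      refine le_trans ?_ hfirst
      refine h2.2.1 Ω _ _ _ μ _ _ _ hμ ?_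
      intro ω ω' _ _ e
      simp only [hG, Prod.mk.injEq] at e ⊢
      exact e.2
    | succ k ih =>
      intro hk
      have i1 := ih (Nat.le_of_succ_le hk)
      have i2 := hmid k hk
      have i3 := (h1 Ω _ _ _ μ (fun ω => dv (n - k * w) (Y' ω)) (fun ω => dv (n - (k + 1) * w) (Y' ω)) G hμ).2.1
      have i4 : CH μ (fun ω => dv (n - (k + 1) * w) (Y' ω)) G ≤
          CH μ (fun ω => (dv (n - k * w) (Y' ω), dv (n - (k + 1) * w) (Y' ω))) G := by
        refine h2.1 Ω _ _ _ μ _ _ _ hμ ?_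
        intro ω ω' _ _ e
        simp only [Prod.mk.injEq] at e
        exact e.1.2
      have i5 : CH μ (fun ω => dv (n - (k + 1) * w) (Y' ω)) (fun ω => (dv (n - k * w) (Y' ω), G ω)) ≤
          (ν + ε / 4) * w := by
        refine le_trans ?_ i2
        refine h2.2.1 Ω _ _ _ μ _ _ _ hμ ?_
        intro ω ω' _ _ e
        simp only [hG, Prod.mk.injEq] at e
        simp only [Prod.mk.injEq]
        have e1 : Y ω = Y ω' := e.2.1
        refine ⟨?_, ⟨?_, e.1⟩, e.2.2.1, e.2.2.2⟩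
        · change dv (n - (k + 1) * w) (Y ω) = dv (n - (k + 1) * w) (Y ω')
          rw [e1]
        · change dv (n - k * w) (Y ω) = dv (n - k * w) (Y ω')
          rw [e1]
      push_cast
      linarith
  have hMw : M * w ≤ n := Nat.mul_div_le n M
  have hrest : n - M * w < M := by
    rw [hw]
    have := Nat.mod_add_div n M
    have h' := Nat.mod_lt n (by omega : 0 < M)
    omega
  have hlast : CH μ Y' (fun ω => (dv (n - M * w) (Y' ω), G ω)) ≤ m * M := by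
    have hK : (0 : ℝ) ≤ 2 ^ (n - M * w) - 1 := by
      have : (1 : ℝ) ≤ 2 ^ (n - M * w) := one_le_pow₀ (by norm_num)
      linarith
    have e := h3.2 Ω _ m μ Y' (fun ω => (dv (n - M * w) (Y' ω), G ω)) (2 ^ (n - M * w) - 1) hμ hK ?_
    · refine e.trans ?_
      rw [hTT.s.ms, mul_one, sub_add_cancel, Real.logb_pow, Real.logb_self_eq_one (by norm_num), mul_one]
      refine mul_le_mul_of_nonneg_left ?_ (Nat.cast_nonneg m)
      exact_mod_cast hrest.le
    · intro ω ω' _ _ e i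
      simp only [Prod.mk.injEq] at e
      have e1 : Y' ω i / (2 : ℤ) ^ (n - M * w) = Y' ω' i / (2 : ℤ) ^ (n - M * w) := congrFun e.1 i
      have hp : (0 : ℤ) < 2 ^ (n - M * w) := by positivity
      have a1 := Int.emod_add_mul_ediv (Y' ω i) ((2 : ℤ) ^ (n - M * w))
      have a2 := Int.emod_add_mul_ediv (Y' ω' i) ((2 : ℤ) ^ (n - M * w))
      have b1 := Int.emod_nonneg (Y' ω i) hp.ne'
      have b2 := Int.emod_nonneg (Y' ω' i) hp.ne'
      have c1 := Int.emod_lt_of_pos (Y' ω i) hp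
      have c2 := Int.emod_lt_of_pos (Y' ω' i) hp
      rw [e1] at a1
      have d : |Y' ω i - Y' ω' i| ≤ 2 ^ (n - M * w) - 1 := by
        rw [abs_le]
        constructor <;> linarith
      have : ((|Y' ω i - Y' ω' i| : ℤ) : ℝ) ≤ ((2 ^ (n - M * w) - 1 : ℤ) : ℝ) := by exact_mod_cast d
      push_cast at this
      exact this
  have htot : CH μ Y' G ≤ CH μ (fun ω => dv (n - M * w) (Y' ω)) G +
      CH μ Y' (fun ω => (dv (n - M * w) (Y' ω), G ω)) := by
    rw [← (h1 Ω _ _ _ μ (fun ω => dv (n - M * w) (Y' ω)) Y' G hμ).2.1]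
    refine h2.1 Ω _ _ _ μ _ _ _ hμ ?_
    intro ω ω' _ _ e
    simp only [Prod.mk.injEq] at e
    exact e.1.2
  have hc := chain M le_rfl
  have hmw : (M : ℝ) * ((ν + ε / 4) * w) ≤ (ν + ε / 4) * n + M * |ν + ε / 4| := by
    have f1 : (M : ℝ) * w ≤ n := by exact_mod_cast hMw
    have f2 : (n : ℝ) - M ≤ (M : ℝ) * w := by
      have : n ≤ M * w + M := by omega
      have : (n : ℝ) ≤ M * w + M := by exact_mod_cast this
      linarith
    have hM0 : (0 : ℝ) ≤ M := Nat.cast_nonneg M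
    rcases le_total 0 (ν + ε / 4) with h0 | h0
    · have := mul_le_mul_of_nonneg_left f1 h0
      have g : 0 ≤ (M : ℝ) * |ν + ε / 4| := by positivity
      nlinarith
    · have := mul_le_mul_of_nonpos_left f2 h0
      rw [abs_of_nonpos h0]
      nlinarith
  have hlarge : (M : ℝ) * |ν + ε / 4| + m * M ≤ ε / 2 * n := by
    have g1 : ((M : ℝ) * |ν + ε / 4| + m * M) / (ε / 2) ≤ n := hn3.trans (by exact_mod_cast hn3')
    rw [div_le_iff₀ (by positivity)] at g1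
    linarith
  linarith

end Pool.Agent.Helper66.HK
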